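import Pool.Agent.H85R3.HSTest

/-! Test functions of small support and an upper bound for all the eigenvalues `λ_i`, `i ≤ 2 g - 3`.
Adapted from the starting library (`Pool.Agent.H85R3.HSTest`, `HSEig`), with supports of radius
`1/5`. -/

set_option autoImplicit false

open scoped MatrixGroups UpperHalfPlane ENNReal Pointwise ContDiff Topology
open MeasureTheory UpperHalfPlane

namespace Pool.Agent.Y279.HS

open Pool.Agent.H85R3.HS hiding bump phi phi_comp phi_comp_eventuallyEq contDiffAt_phi phi_eq_zero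
  phi_I continuous_phi gradSq_phi continuous_gradSq_phi

/-- A bump function near `I`. -/
noncomputable def bump : ContDiffBump (Complex.I : ℂ) := ⟨1 / 16, 1 / 8, by norm_num, by norm_num⟩

/-- The basic test function. -/
noncomputable def phi (w : ℍ) : ℝ := bump (w : ℂ)

theorem phi_comp {z : ℂ} (hz : 0 < z.im) : (phi ∘ ofComplex) z = bump z := by
  simp only [Function.comp, phi]
  rw [ofComplex_apply_of_im_pos hz]

theorem phi_comp_eventuallyEq (w : ℍ) : (phi ∘ ofComplex) =ᶠ[𝓝 (w : ℂ)] bump := by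
  filter_upwards [isOpen_upperHalfPlaneSet.mem_nhds w.im_pos] with z hz
  exact phi_comp hz

theorem contDiffAt_phi (w : ℍ) : ContDiffAt ℝ ∞ (phi ∘ ofComplex) w :=
  bump.contDiffAt.congr_of_eventuallyEq (phi_comp_eventuallyEq w)

theorem dist_lt_fifth {w : ℍ} (hw : dist (w : ℂ) Complex.I < 1 / 8) :
    dist w UpperHalfPlane.I < 1 / 5 := by
  have hn : ‖(w : ℂ) - Complex.I‖ < 1 / 8 := by rwa [← Complex.dist_eq]
  have him : 7 / 8 < w.im := by
    have h1 := Complex.abs_im_le_norm ((w : ℂ) - Complex.I)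
    simp at h1
    have h2 := neg_abs_le (w.im - 1)
    linarith
  have hc := UpperHalfPlane.cosh_dist w UpperHalfPlane.I
  rw [UpperHalfPlane.I_im] at hc
  have h3 : dist (w : ℂ) ((UpperHalfPlane.I : ℍ) : ℂ) ^ 2 ≤ 1 / 64 := by
    have h4 : dist (w : ℂ) ((UpperHalfPlane.I : ℍ) : ℂ) < 1 / 8 := by
      rw [UpperHalfPlane.coe_I]
      exact hw
    nlinarith [dist_nonneg (x := (w : ℂ)) (y := ((UpperHalfPlane.I : ℍ) : ℂ))]
  have h5 : dist (w : ℂ) ((UpperHalfPlane.I : ℍ) : ℂ) ^ 2 / (2 * w.im * 1) ≤ 1 / 100 := by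
    rw [div_le_iff₀ (by linarith)]
    linarith
  by_contra hcon
  push Not at hcon
  have h6 : Real.cosh (1 / 5) ≤ Real.cosh (dist w UpperHalfPlane.I) := by
    apply Real.cosh_le_cosh.mpr
    rw [abs_of_pos (by norm_num : (0 : ℝ) < 1 / 5), abs_of_nonneg dist_nonneg]
    exact hcon
  have h7 : (1 : ℝ) + 1 / 50 ≤ Real.cosh (1 / 5) := by
    have h8 : Real.cosh (1 / 5) = 2 * Real.sinh (1 / 10) ^ 2 + 1 := by
      have := Real.cosh_two_mul (1 / 10)
      rw [show (2 : ℝ) * (1 / 10) = 1 / 5 by norm_num] at this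
      rw [this, Real.cosh_sq]
      ring
    have h9 : (1 / 10 : ℝ) < Real.sinh (1 / 10) := Real.self_lt_sinh_iff.mpr (by norm_num)
    nlinarith
  linarith

theorem phi_eq_zero {w : ℍ} (hw : 1 / 5 ≤ dist w UpperHalfPlane.I) : phi w = 0 := by
  by_contra h
  have h1 : (w : ℂ) ∈ Function.support bump := h
  rw [bump.support_eq, Metric.mem_ball] at h1
  have h2 : dist w UpperHalfPlane.I < 1 / 5 := dist_lt_fifth h1
  linarith

theorem phi_I : phi UpperHalfPlane.I = 1 := by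
  unfold phi
  rw [UpperHalfPlane.coe_I]
  exact bump.one_of_mem_closedBall (Metric.mem_closedBall_self (by norm_num [bump]))

theorem continuous_phi : Continuous phi := bump.continuous.comp UpperHalfPlane.continuous_coe

theorem gradSq_phi (w : ℍ) : gradSq phi w = w.im ^ 2 * (fderiv ℝ bump (w : ℂ) 1 ^ 2 +
    fderiv ℝ bump (w : ℂ) Complex.I ^ 2) := by
  unfold gradSq
  rw [(phi_comp_eventuallyEq w).fderiv_eq]

theorem continuous_gradSq_phi : Continuous (gradSq phi) := by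
  have h1 : Continuous (fderiv ℝ bump) := (bump.contDiff (n := 1)).continuous_fderiv (by norm_num)
  have h2 : gradSq phi = fun w : ℍ => w.im ^ 2 * (fderiv ℝ bump (w : ℂ) 1 ^ 2 +
    fderiv ℝ bump (w : ℂ) Complex.I ^ 2) := funext gradSq_phi
  rw [h2]
  have h3 : Continuous fun w : ℍ => fderiv ℝ bump (w : ℂ) := h1.comp UpperHalfPlane.continuous_coe
  exact (UpperHalfPlane.continuous_im.pow 2).mul
    (((h3.clm_apply continuous_const).pow 2).add ((h3.clm_apply continuous_const).pow 2))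


variable {Γ : Subgroup SL(2, ℝ)} {S : ℝ} {n : ℕ}

/-- The test function centred at `z j`. -/
noncomputable def uf (z : Fin n → ℍ) (j : Fin n) (w : ℍ) : ℝ := phi ((z j).toSL2R⁻¹ • w)

/-- Its periodisation. -/
noncomputable def pf (Γ : Subgroup SL(2, ℝ)) (z : Fin n → ℍ) (j : Fin n) (w : ℍ) : ℝ :=
  ∑ᶠ g : Γ, uf z j (g.1 • w)

theorem uf_eq_zero {z : Fin n → ℍ} {j : Fin n} {w : ℍ} (h : 1 / 5 ≤ dist w (z j)) : uf z j w = 0 := by
  unfold uf
  apply phi_eq_zero
  rwa [← dist_smul (z j).toSL2R, smul_inv_smul, UpperHalfPlane.toSL2R_smul_I]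

theorem uf_self (z : Fin n → ℍ) (j : Fin n) : uf z j (z j) = 1 := by
  unfold uf
  have : (z j).toSL2R⁻¹ • z j = UpperHalfPlane.I := by
    rw [inv_smul_eq_iff, UpperHalfPlane.toSL2R_smul_I]
  rw [this, phi_I]

theorem sep_unique {r : ℝ} {z : Fin n → ℍ} (h : Sep Γ r z) {j k : Fin n} {g g' : SL(2, ℝ)}
    (hg : g ∈ Γ) (hg' : g' ∈ Γ) {w : ℍ} (h1 : dist (g • w) (z j) < r)
    (h2 : dist (g' • w) (z k) < r) : j = k ∧ g = g' := by
  by_contra hcon
  have hne : j ≠ k ∨ g * g'⁻¹ ≠ 1 := by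
    by_contra h3
    push Not at h3
    exact hcon ⟨h3.1, mul_inv_eq_one.mp h3.2⟩
  have h3 := h j k (g * g'⁻¹) (Γ.mul_mem hg (Γ.inv_mem hg')) hne
  have h4 : dist (g • w) ((g * g'⁻¹) • z k) = dist (g' • w) (z k) := by
    rw [← dist_smul (g * g'⁻¹) (g' • w), ← mul_smul]
    congr 2
    group
  have h5 := dist_triangle_left (z j) ((g * g'⁻¹) • z k) (g • w)
  linarith

theorem uf_zero_of_ne {r : ℝ} {z : Fin n → ℍ} (h : Sep Γ r z) {j₀ : Fin n}
    {g₀ : SL(2, ℝ)} (hg₀ : g₀ ∈ Γ) {w w' : ℍ} (h1 : dist (g₀ • w) (z j₀) < r)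
    (hw' : dist w' w < r - 1 / 5) {k : Fin n} {g : SL(2, ℝ)} (hg : g ∈ Γ)
    (hne : ¬ (k = j₀ ∧ g = g₀)) : uf z k (g • w') = 0 := by
  apply uf_eq_zero
  by_contra hcon
  push Not at hcon
  have h2 : dist (g • w) (z k) < r := by
    have h3 := dist_triangle (g • w) (g • w') (z k)
    rw [dist_smul, dist_comm w w'] at h3
    linarith
  exact hne (sep_unique h hg hg₀ h2 h1)

theorem uf_zero_of_none {r : ℝ} {z : Fin n → ℍ} {w w' : ℍ}
    (hno : ∀ j, ∀ g ∈ Γ, r ≤ dist (g • w) (z j))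
    (hw' : dist w' w < r - 1 / 5) (k : Fin n) {g : SL(2, ℝ)} (hg : g ∈ Γ) : uf z k (g • w') = 0 := by
  apply uf_eq_zero
  by_contra hcon
  push Not at hcon
  have h3 := dist_triangle (g • w) (g • w') (z k)
  rw [dist_smul, dist_comm w w'] at h3
  have := hno k g hg
  linarith

theorem pf_eq {r : ℝ} {z : Fin n → ℍ} (h : Sep Γ r z) {j₀ : Fin n}
    {g₀ : SL(2, ℝ)} (hg₀ : g₀ ∈ Γ) {w w' : ℍ} (h1 : dist (g₀ • w) (z j₀) < r)
    (hw' : dist w' w < r - 1 / 5) (k : Fin n) :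
    pf Γ z k w' = if k = j₀ then uf z j₀ (g₀ • w') else 0 := by
  unfold pf
  split_ifs with hk
  · subst hk
    rw [finsum_eq_single _ (⟨g₀, hg₀⟩ : Γ)]
    intro g hg
    exact uf_zero_of_ne h hg₀ h1 hw' g.2 (fun h3 => hg (Subtype.ext h3.2))
  · rw [finsum_eq_zero_of_forall_eq_zero]
    intro g
    exact uf_zero_of_ne h hg₀ h1 hw' g.2 (fun h3 => hk h3.1)

theorem pf_eq_zero {r : ℝ} {z : Fin n → ℍ} {w w' : ℍ}
    (hno : ∀ j, ∀ g ∈ Γ, r ≤ dist (g • w) (z j))
    (hw' : dist w' w < r - 1 / 5) (k : Fin n) : pf Γ z k w' = 0 := by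
  unfold pf
  rw [finsum_eq_zero_of_forall_eq_zero]
  intro g
  exact uf_zero_of_none hno hw' k g.2

/-- The linear combination of the test functions. -/
noncomputable def Ff (Γ : Subgroup SL(2, ℝ)) (z : Fin n → ℍ) : (Fin n → ℝ) →ₗ[ℝ] (ℍ → ℝ) where
  toFun a w := ∑ j, a j * pf Γ z j w
  map_add' a b := by
    funext w
    simp [add_mul, Finset.sum_add_distrib]
  map_smul' c a := by
    funext w
    simp [Finset.mul_sum, mul_assoc]

theorem Ff_apply (Γ : Subgroup SL(2, ℝ)) (z : Fin n → ℍ) (a : Fin n → ℝ) (w : ℍ) :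
    Ff Γ z a w = ∑ j, a j * pf Γ z j w := rfl

theorem Ff_eq {r : ℝ} {z : Fin n → ℍ} (h : Sep Γ r z) {j₀ : Fin n}
    {g₀ : SL(2, ℝ)} (hg₀ : g₀ ∈ Γ) {w w' : ℍ} (h1 : dist (g₀ • w) (z j₀) < r)
    (hw' : dist w' w < r - 1 / 5) (a : Fin n → ℝ) : Ff Γ z a w' = a j₀ * uf z j₀ (g₀ • w') := by
  rw [Ff_apply, Finset.sum_eq_single j₀]
  · rw [pf_eq h hg₀ h1 hw', if_pos rfl]
  · intro k _ hk
    rw [pf_eq h hg₀ h1 hw', if_neg hk, mul_zero]
  · simp

theorem Ff_eq_zero {r : ℝ} {z : Fin n → ℍ} {w w' : ℍ}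
    (hno : ∀ j, ∀ g ∈ Γ, r ≤ dist (g • w) (z j))
    (hw' : dist w' w < r - 1 / 5) (a : Fin n → ℝ) : Ff Γ z a w' = 0 := by
  rw [Ff_apply]
  refine Finset.sum_eq_zero fun k _ => ?_
  rw [pf_eq_zero hno hw', mul_zero]

theorem Ff_injective {r : ℝ} (hr : 1 / 5 < r) {z : Fin n → ℍ} (h : Sep Γ r z) :
    Function.Injective (Ff Γ z) := by
  intro a b hab
  funext k
  have h1 : ∀ a : Fin n → ℝ, Ff Γ z a (z k) = a k := by
    intro a
    rw [Ff_eq h Γ.one_mem (w := z k) (w' := z k) (j₀ := k) (by simp; linarith)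
      (by simp; linarith), one_smul, uf_self, mul_one]
  rw [← h1 a, ← h1 b, hab]

theorem Ff_invariant (z : Fin n → ℍ) (a : Fin n → ℝ) {g : SL(2, ℝ)} (hg : g ∈ Γ) (w : ℍ) :
    Ff Γ z a (g • w) = Ff Γ z a w := by
  rw [Ff_apply, Ff_apply]
  refine Finset.sum_congr rfl fun j _ => ?_
  congr 1
  unfold pf
  refine finsum_eq_of_bijective (fun g' : Γ => g' * ⟨g, hg⟩) ?_ ?_
  · exact (Equiv.mulRight (⟨g, hg⟩ : Γ)).bijective
  · intro g'
    change uf z j (g'.1 • g • w) = uf z j ((g'.1 * g) • w)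
    rw [mul_smul]

theorem uf_smul (z : Fin n → ℍ) (j : Fin n) (g : SL(2, ℝ)) :
    (fun w : ℍ => uf z j (g • w)) = fun w => phi (((z j).toSL2R⁻¹ * g) • w) := by
  funext w
  unfold uf
  rw [mul_smul]

theorem contDiffAt_phi_smul (h : SL(2, ℝ)) (w : ℍ) :
    ContDiffAt ℝ ∞ ((fun w : ℍ => phi (h • w)) ∘ ofComplex) w := by
  have h1 : ((fun w : ℍ => phi (h • w)) ∘ ofComplex) = (phi ∘ ofComplex) ∘ mob h :=
    funext (comp_mob phi h)
  rw [h1]
  have hw : mob h (w : ℂ) = ((h • w : ℍ) : ℂ) := by simp [mob, ofComplex_apply]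
  refine ContDiffAt.comp (w : ℂ) ?_ (contDiffAt_mob h w)
  rw [hw]
  exact contDiffAt_phi _

theorem tendsto_ofComplex (w : ℍ) : Filter.Tendsto ofComplex (𝓝 (w : ℂ)) (𝓝 w) := by
  have h2 : ContinuousAt ofComplex (w : ℂ) := ofComplex.continuousAt (by
    rw [ofComplex]
    simp [w.im_pos])
  have := h2.tendsto
  rwa [ofComplex_apply w] at this

theorem ball_nhds {r : ℝ} (hr : 1 / 5 < r) (w : ℍ) : ∀ᶠ w' in 𝓝 w, dist w' w < r - 1 / 5 :=
  Metric.ball_mem_nhds w (by linarith)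

theorem Ff_smooth {r : ℝ} (hr : 1 / 5 < r) {z : Fin n → ℍ} (h : Sep Γ r z) (a : Fin n → ℝ) :
    ContDiffOn ℝ ∞ (Ff Γ z a ∘ ofComplex) {z : ℂ | 0 < z.im} := by
  intro p hp
  obtain ⟨w, rfl⟩ : ∃ w : ℍ, (w : ℂ) = p := ⟨⟨p, hp⟩, rfl⟩
  refine ContDiffAt.contDiffWithinAt ?_
  by_cases hex : ∃ j₀, ∃ g₀ ∈ Γ, dist (g₀ • w) (z j₀) < r
  · obtain ⟨j₀, g₀, hg₀, h1⟩ := hex
    have h2 : (Ff Γ z a ∘ ofComplex) =ᶠ[𝓝 (w : ℂ)]
        fun p => a j₀ * ((fun w : ℍ => phi (((z j₀).toSL2R⁻¹ * g₀) • w)) ∘ ofComplex) p := by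
      filter_upwards [(tendsto_ofComplex w).eventually (ball_nhds hr w)] with p hp
      simp only [Function.comp]
      rw [Ff_eq h hg₀ h1 hp a]
      unfold uf
      rw [mul_smul]
    exact (contDiffAt_const.mul (contDiffAt_phi_smul _ w)).congr_of_eventuallyEq h2
  · push Not at hex
    have h2 : (Ff Γ z a ∘ ofComplex) =ᶠ[𝓝 (w : ℂ)] fun _ => 0 := by
      filter_upwards [(tendsto_ofComplex w).eventually (ball_nhds hr w)] with p hp
      simp only [Function.comp]
      exact Ff_eq_zero hex hp a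
    exact contDiffAt_const.congr_of_eventuallyEq h2

theorem gradSq_const_mul (c : ℝ) {f : ℍ → ℝ} {w : ℍ}
    (hf : DifferentiableAt ℝ (f ∘ ofComplex) (w : ℂ)) :
    gradSq (fun w => c * f w) w = c ^ 2 * gradSq f w := by
  unfold gradSq
  have h1 : ((fun w => c * f w) ∘ ofComplex) = fun p => c * (f ∘ ofComplex) p := rfl
  rw [h1, fderiv_const_mul hf]
  simp
  ring

theorem differentiableAt_uf (z : Fin n → ℍ) (j : Fin n) (g : SL(2, ℝ)) (w : ℍ) :
    DifferentiableAt ℝ ((fun w : ℍ => uf z j (g • w)) ∘ ofComplex) w := by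
  rw [uf_smul]
  exact (contDiffAt_phi_smul _ w).differentiableAt (by simp)

theorem gradSq_uf_zero {z : Fin n → ℍ} {j : Fin n} {w : ℍ} {r : ℝ} (hr : 1 / 5 < r)
    (h : r ≤ dist w (z j)) : gradSq (uf z j) w = 0 := by
  apply gradSq_eq_zero_of_eventually
  have h1 : ∀ᶠ w' in 𝓝 w, 1 / 5 < dist w' (z j) := by
    have hc : ContinuousAt (fun w' => dist w' (z j)) w :=
      (continuous_id.dist continuous_const).continuousAt
    exact hc.eventually (lt_mem_nhds (by linarith))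
  filter_upwards [h1] with w' hw'
  exact uf_eq_zero hw'.le

/-- The pointwise formula for the square. -/
theorem sq_formula {r : ℝ} (hr : 1 / 5 < r) {z : Fin n → ℍ} (h : Sep Γ r z) (a : Fin n → ℝ) (w : ℍ) :
    ENNReal.ofReal (Ff Γ z a w ^ 2) =
      ∑ j, ∑' g : Γ, ENNReal.ofReal (a j ^ 2) * ENNReal.ofReal (uf z j (g • w) ^ 2) := by
  by_cases hex : ∃ j₀, ∃ g₀ ∈ Γ, dist (g₀ • w) (z j₀) < r
  · obtain ⟨j₀, g₀, hg₀, h1⟩ := hex
    have hw : dist w w < r - 1 / 5 := by rw [dist_self]; linarith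
    rw [Ff_eq h hg₀ h1 hw a, Finset.sum_eq_single j₀, tsum_eq_single (⟨g₀, hg₀⟩ : Γ), mul_pow,
      ENNReal.ofReal_mul (sq_nonneg _)]
    · rfl
    · intro g hg
      have : uf z j₀ (g • w) = 0 :=
        uf_zero_of_ne h hg₀ h1 hw g.2 (fun h3 => hg (Subtype.ext h3.2))
      rw [this]
      simp
    · intro k _ hk
      have : ∀ g : Γ, uf z k (g • w) = 0 := fun g =>
        uf_zero_of_ne h hg₀ h1 hw g.2 (fun h3 => hk h3.1)
      simp [this]
    · simp
  · push Not at hex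
    have hw : dist w w < r - 1 / 5 := by rw [dist_self]; linarith
    rw [Ff_eq_zero hex hw]
    have : ∀ (k : Fin n) (g : Γ), uf z k (g • w) = 0 := fun k g =>
      uf_zero_of_none hex hw k g.2
    simp [this]

/-- The pointwise formula for the gradient. -/
theorem grad_formula {r : ℝ} (hr : 1 / 5 < r) {z : Fin n → ℍ} (h : Sep Γ r z) (a : Fin n → ℝ)
    (w : ℍ) : ENNReal.ofReal (gradSq (Ff Γ z a) w) =
      ∑ j, ∑' g : Γ, ENNReal.ofReal (a j ^ 2) * ENNReal.ofReal (gradSq (uf z j) (g • w)) := by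
  by_cases hex : ∃ j₀, ∃ g₀ ∈ Γ, dist (g₀ • w) (z j₀) < r
  · obtain ⟨j₀, g₀, hg₀, h1⟩ := hex
    have h2 : gradSq (Ff Γ z a) w = a j₀ ^ 2 * gradSq (uf z j₀) (g₀ • w) := by
      have h3 : ∀ᶠ w' in 𝓝 w, Ff Γ z a w' = a j₀ * (fun w : ℍ => uf z j₀ (g₀ • w)) w' := by
        filter_upwards [ball_nhds hr w] with w' hw'
        exact Ff_eq h hg₀ h1 hw' a
      rw [gradSq_congr h3, gradSq_const_mul _ (differentiableAt_uf z j₀ g₀ w), gradSq_smul]
      have := differentiableAt_uf z j₀ 1 (g₀ • w)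
      simpa using this
    rw [h2, Finset.sum_eq_single j₀, tsum_eq_single (⟨g₀, hg₀⟩ : Γ),
      ENNReal.ofReal_mul (sq_nonneg _)]
    · rfl
    · intro g hg
      have : gradSq (uf z j₀) (g • w) = 0 := by
        apply gradSq_uf_zero hr
        by_contra hcon
        push Not at hcon
        exact hg (Subtype.ext (sep_unique h g.2 hg₀ hcon h1).2)
      rw [this]
      simp
    · intro k _ hk
      have : ∀ g : Γ, gradSq (uf z k) (g • w) = 0 := by
        intro g
        apply gradSq_uf_zero hr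
        by_contra hcon
        push Not at hcon
        exact hk (sep_unique h g.2 hg₀ hcon h1).1
      simp [this]
    · simp
  · push Not at hex
    have h2 : gradSq (Ff Γ z a) w = 0 := by
      apply gradSq_eq_zero_of_eventually
      filter_upwards [ball_nhds hr w] with w' hw'
      exact Ff_eq_zero hex hw' a
    rw [h2]
    have : ∀ (k : Fin n) (g : Γ), gradSq (uf z k) (g • w) = 0 := by
      intro k g
      exact gradSq_uf_zero hr (hex k g.1 g.2)
    simp [this]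

/-- The squared norm of the basic test function. -/
noncomputable def N0 : ℝ≥0∞ := ∫⁻ w : ℍ, ENNReal.ofReal (phi w ^ 2)
/-- The energy of the basic test function. -/
noncomputable def E0 : ℝ≥0∞ := ∫⁻ w : ℍ, ENNReal.ofReal (gradSq phi w)

theorem integral_sq_uf (z : Fin n → ℍ) (j : Fin n) :
    ∫⁻ w : ℍ, ENNReal.ofReal (uf z j w ^ 2) = N0 := by
  have h1 : Measurable fun w : ℍ => ENNReal.ofReal (phi w ^ 2) :=
    (continuous_phi.measurable.pow_const 2).ennreal_ofReal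
  have := (measurePreserving_smul (z j).toSL2R⁻¹ (volume : Measure ℍ)).lintegral_comp h1
  exact this

theorem integral_grad_uf (z : Fin n → ℍ) (j : Fin n) :
    ∫⁻ w : ℍ, ENNReal.ofReal (gradSq (uf z j) w) = E0 := by
  have h1 : Measurable fun w : ℍ => ENNReal.ofReal (gradSq phi w) :=
    (measurable_gradSq phi).ennreal_ofReal
  have := (measurePreserving_smul (z j).toSL2R⁻¹ (volume : Measure ℍ)).lintegral_comp h1
  rw [E0, ← this]
  refine lintegral_congr fun w => ?_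
  congr 1
  exact gradSq_smul phi _ w ((contDiffAt_phi _).differentiableAt (by simp))

theorem unfold_integral (hM : MovesFar Γ S) (hS : 0 < S) {D : Set ℍ}
    (hD : IsFundamentalDomain Γ D (volume : Measure ℍ)) (a : Fin n → ℝ)
    (ρ : Fin n → ℍ → ℝ) (hρ : ∀ j, Measurable (ρ j)) {c : ℝ≥0∞}
    (hc : ∀ j, ∫⁻ w : ℍ, ENNReal.ofReal (ρ j w) = c) :
    ∫⁻ w in D, ∑ j, ∑' g : Γ, ENNReal.ofReal (a j ^ 2) * ENNReal.ofReal (ρ j (g • w)) =
      (∑ j, ENNReal.ofReal (a j ^ 2)) * c := by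
  have : Countable Γ := hM.countable hS
  have hm : ∀ (j : Fin n) (g : Γ), Measurable fun w : ℍ => ENNReal.ofReal (ρ j (g • w)) :=
    fun j g => ((hρ j).comp (measurable_const_smul g)).ennreal_ofReal
  rw [lintegral_finset_sum _ (fun j _ => Measurable.ennreal_tsum fun g => (hm j g).const_mul _),
    Finset.sum_mul]
  refine Finset.sum_congr rfl fun j _ => ?_
  rw [lintegral_tsum (fun g => ((hm j g).const_mul _).aemeasurable)]
  simp only [fun g : Γ => lintegral_const_mul (μ := volume.restrict D) (ENNReal.ofReal (a j ^ 2)) (hm j g)]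
  rw [ENNReal.tsum_mul_left, ← hc j, hD.lintegral_eq_tsum'']

theorem N0_ne_zero : N0 ≠ 0 := by
  intro h0
  rw [N0, lintegral_eq_zero_iff (continuous_phi.measurable.pow_const 2).ennreal_ofReal] at h0
  have h1 : ∀ᶠ w in 𝓝 UpperHalfPlane.I, (1 / 2 : ℝ) < phi w := by
    refine continuous_phi.continuousAt.eventually (lt_mem_nhds ?_)
    rw [phi_I]
    norm_num
  obtain ⟨ε, hε, hball⟩ := Metric.eventually_nhds_iff_ball.mp h1
  have h2 : volume (Metric.ball UpperHalfPlane.I ε) = 0 := by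
    rw [Filter.EventuallyEq, ae_iff] at h0
    refine measure_mono_null (fun w hw => ?_) h0
    have := hball w hw
    simp
    nlinarith
  exact volume_ball_ne_zero hε h2

theorem finite_of_bounded {ρ : ℍ → ℝ} {C : ℝ} (hC : ∀ w ∈ Metric.closedBall UpperHalfPlane.I (1 / 5), ρ w ≤ C)
    (h0 : ∀ w ∉ Metric.closedBall UpperHalfPlane.I (1 / 5), ρ w = 0) :
    ∫⁻ w : ℍ, ENNReal.ofReal (ρ w) < ⊤ := by
  calc ∫⁻ w : ℍ, ENNReal.ofReal (ρ w)
      ≤ ∫⁻ w : ℍ, (Metric.closedBall UpperHalfPlane.I (1 / 5)).indicator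
        (fun _ => ENNReal.ofReal C) w := by
        refine lintegral_mono fun w => ?_
        by_cases hw : w ∈ Metric.closedBall UpperHalfPlane.I (1 / 5)
        · rw [Set.indicator_of_mem hw]
          exact ENNReal.ofReal_le_ofReal (hC w hw)
        · rw [Set.indicator_of_notMem hw, h0 w hw]
          simp
    _ = ENNReal.ofReal C * volume (Metric.closedBall UpperHalfPlane.I (1 / 5)) := by
        rw [lintegral_indicator Metric.isClosed_closedBall.measurableSet, setLIntegral_const]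
    _ < ⊤ := ENNReal.mul_lt_top ENNReal.ofReal_lt_top (isCompact_closedBall _ _).measure_lt_top

theorem N0_lt_top : N0 < ⊤ := by
  refine finite_of_bounded (C := 1) (fun w _ => ?_) fun w hw => ?_
  · have h1 : 0 ≤ phi w := bump.nonneg
    have h2 : phi w ≤ 1 := bump.le_one
    nlinarith
  · rw [Metric.mem_closedBall, not_le] at hw
    rw [phi_eq_zero hw.le]
    norm_num

theorem E0_lt_top : E0 < ⊤ := by
  obtain ⟨C, hC⟩ := (isCompact_closedBall UpperHalfPlane.I (1 / 5 : ℝ)).bddAbove_image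
    continuous_gradSq_phi.continuousOn
  refine finite_of_bounded (C := C) (fun w hw => hC ⟨w, hw, rfl⟩) fun w hw => ?_
  rw [Metric.mem_closedBall, not_le] at hw
  apply gradSq_eq_zero_of_eventually
  have hc : ContinuousAt (fun w' => dist w' UpperHalfPlane.I) w :=
    (continuous_id.dist continuous_const).continuousAt
  filter_upwards [hc.eventually (lt_mem_nhds hw)] with w' hw'
  exact phi_eq_zero hw'.le

/-- The universal bound. -/
noncomputable def Lam : ℝ := (E0 / N0).toReal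

theorem Lam_nonneg : 0 ≤ Lam := ENNReal.toReal_nonneg

theorem E0_eq : E0 = ENNReal.ofReal Lam * N0 := by
  unfold Lam
  rw [ENNReal.ofReal_toReal (ENNReal.div_lt_top E0_lt_top.ne N0_ne_zero).ne,
    ENNReal.div_mul_cancel N0_ne_zero N0_lt_top.ne]

/-- The eigenvalue bound. -/
theorem eigenvalue_le (hM : MovesFar Γ S) (hS : 0 < S) {r : ℝ} (hr : 1 / 5 < r) {i : ℕ}
    {z : Fin (i + 1) → ℍ} (h : Sep Γ r z) : eigenvalue Γ i ≤ Lam := by
  refine csInf_le ⟨0, fun t ht => ht.1⟩ ⟨Lam_nonneg, LinearMap.range (Ff Γ z), ?_, ?_⟩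
  · rw [LinearMap.finrank_range_of_inj (Ff_injective hr h)]
    simp
  · rintro _ ⟨a, rfl⟩
    refine ⟨⟨Ff_smooth hr h a, fun g hg w => Ff_invariant z a hg w⟩, ?_⟩
    intro D hD
    simp only [sq_formula hr h a, grad_formula hr h a]
    rw [unfold_integral hM hS hD a (fun j => gradSq (uf z j)) (fun j => measurable_gradSq _)
      (fun j => integral_grad_uf z j),
      unfold_integral hM hS hD a (fun j w => uf z j w ^ 2) (fun j => ?_)
      (fun j => integral_sq_uf z j), E0_eq]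
    · exact le_of_eq (by ring)
    · exact (continuous_phi.measurable.comp (measurable_const_smul _)).pow_const 2

end Pool.Agent.Y279.HS
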