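import Pool.Agent.H85R3.HSMain
import Pool.Agent.Y279.HS.Eig

/-! The area of the congruence covers, and packings by small balls. -/

set_option autoImplicit false

open scoped MatrixGroups UpperHalfPlane ENNReal
open MeasureTheory UpperHalfPlane Matrix

namespace Pool.Agent.Y279.HS

open Pool.Agent.H85R3.HS (qm nf cls cong MovesFar minkowski exists_unit exists_packing det_qm
  cosh_dist_I Sep volume_ball volume_ball_lt_top volume_ball_large aniso trace_bound cosh_dist_ge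
  sqrt2_sq IsClosedSurface genus area cutLength cutLength_ge cocompact)

theorem vol_half : volume (Metric.ball UpperHalfPlane.I (1 / 2)) ≤ ENNReal.ofReal (2 * Real.pi) := by
  rw [volume_eq_lintegral, UpperHalfPlane.image_coe_ball]
  have h1 : ∀ z ∈ Metric.ball ((UpperHalfPlane.I.center (1 / 2) : ℍ) : ℂ)
      (UpperHalfPlane.I.im * Real.sinh (1 / 2)),
      (((1 / ‖z.im‖₊) ^ 2 : NNReal) : ℝ≥0∞) ≤ ENNReal.ofReal (Real.exp 1) := by
    intro z hz
    rw [← UpperHalfPlane.image_coe_ball] at hz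
    obtain ⟨w, hw, rfl⟩ := hz
    rw [Metric.mem_ball, dist_comm] at hw
    have h2 := UpperHalfPlane.im_div_exp_dist_le UpperHalfPlane.I w
    rw [UpperHalfPlane.I_im] at h2
    have h3 : Real.exp (-(1 / 2)) ≤ w.im := by
      refine le_trans ?_ h2
      rw [one_div (Real.exp _), ← Real.exp_neg]
      exact Real.exp_le_exp.2 (by linarith)
    have hw0 : 0 < w.im := w.im_pos
    rw [ENNReal.ofReal]
    norm_cast
    rw [← NNReal.coe_le_coe, Real.coe_toNNReal _ (Real.exp_pos _).le]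
    push_cast
    rw [UpperHalfPlane.coe_im, Real.norm_eq_abs, abs_of_pos hw0, div_pow, one_pow,
      div_le_iff₀ (by positivity)]
    have h4 : Real.exp (-(1 / 2)) ^ 2 ≤ w.im ^ 2 := pow_le_pow_left₀ (Real.exp_pos _).le h3 2
    have h5 : Real.exp (-(1 / 2)) ^ 2 = Real.exp (-1) := by
      rw [← Real.exp_nat_mul]; congr 1; norm_num
    rw [h5] at h4
    calc (1 : ℝ) = Real.exp 1 * Real.exp (-1) := by rw [← Real.exp_add]; simp
      _ ≤ Real.exp 1 * w.im ^ 2 := mul_le_mul_of_nonneg_left h4 (Real.exp_pos _).le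
  refine (setLIntegral_mono' Metric.isOpen_ball.measurableSet h1).trans ?_
  rw [setLIntegral_const, Complex.volume_ball, UpperHalfPlane.I_im, one_mul]
  have hs : 0 ≤ Real.sinh (1 / 2) := Real.sinh_nonneg_iff.2 (by norm_num)
  have h6 : (NNReal.pi : ℝ≥0∞) = ENNReal.ofReal Real.pi := by
    rw [ENNReal.ofReal]
    congr 1
    exact (Real.toNNReal_coe (r := NNReal.pi)).symm
  rw [h6, ← ENNReal.ofReal_pow hs, ← ENNReal.ofReal_mul (by positivity),
    ← ENNReal.ofReal_mul (by positivity)]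
  apply ENNReal.ofReal_le_ofReal
  have h7 : Real.sinh (1 / 2) ^ 2 = (Real.exp 1 + Real.exp (-1) - 2) / 4 := by
    rw [Real.sinh_eq, div_pow, sub_sq, ← Real.exp_nat_mul, ← Real.exp_nat_mul, mul_assoc,
      ← Real.exp_add]
    have e1 : ((2 : ℕ) : ℝ) * (1 / 2) = 1 := by norm_num
    have e2 : ((2 : ℕ) : ℝ) * -(1 / 2) = -1 := by norm_num
    have e3 : (1 / 2 : ℝ) + -(1 / 2) = 0 := by norm_num
    rw [e1, e2, e3, Real.exp_zero]
    ring
  have h8 : Real.exp 1 * Real.exp (-1) = 1 := by rw [← Real.exp_add]; simp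
  have h9 := Real.exp_one_lt_d9
  have h10 := Real.exp_one_gt_d9
  rw [h7]
  have h11 : Real.exp 1 * ((Real.exp 1 + Real.exp (-1) - 2) / 4) ≤ 2 := by
    nlinarith
  calc Real.exp 1 * ((Real.exp 1 + Real.exp (-1) - 2) / 4 * Real.pi)
      = Real.pi * (Real.exp 1 * ((Real.exp 1 + Real.exp (-1) - 2) / 4)) := by ring
    _ ≤ Real.pi * 2 := mul_le_mul_of_nonneg_left h11 Real.pi_pos.le
    _ = 2 * Real.pi := by ring

/-- the matrix of a quadruple -/
noncomputable def qq (q : ℤ × ℤ × ℤ × ℤ) : Matrix (Fin 2) (Fin 2) ℝ :=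
  qm q.1 q.2.1 q.2.2.1 q.2.2.2

theorem det_qq (q : ℤ × ℤ × ℤ × ℤ) : (qq q).det = ((nf q : ℤ) : ℝ) := by
  unfold qq
  rw [det_qm]
  rfl

/-- the relation between a class and the elements that occur for it -/
def Rel (n : ℤ) (q : ℤ × ℤ × ℤ × ℤ) (k : SL(2, ℝ)) : Prop :=
  ∃ M : Matrix (Fin 2) (Fin 2) ℝ, (∀ i j, |M i j| ≤ 3) ∧ M.det = n ∧
    k.1 = (n : ℝ)⁻¹ • ((qq q).adjugate * M)

theorem rel_dist {n : ℤ} {q : ℤ × ℤ × ℤ × ℤ} (hn : n ≠ 0) (hq : nf q = n) {k k' : SL(2, ℝ)}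
    (h : Rel n q k) (h' : Rel n q k') :
    dist (k • UpperHalfPlane.I) (k' • UpperHalfPlane.I) ≤ 1296 := by
  obtain ⟨M, hM, hMd, hk⟩ := h
  obtain ⟨M', hM', hMd', hk'⟩ := h'
  have hnR : (n : ℝ) ≠ 0 := by exact_mod_cast hn
  have hn1 : (1 : ℝ) ≤ |(n : ℝ)| := by
    have : 1 ≤ |n| := Int.one_le_abs hn
    exact_mod_cast this
  set m : SL(2, ℝ) := k⁻¹ * k' with hm
  have hA : (qq q).det = (n : ℝ) := by rw [det_qq, hq]
  have hm1 : m.1 = (n : ℝ)⁻¹ • (M.adjugate * M') := by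
    have e1 : m.1 = k.1.adjugate * k'.1 := by
      rw [hm, Matrix.SpecialLinearGroup.coe_mul, Matrix.SpecialLinearGroup.coe_inv]
    rw [e1, hk, hk', Matrix.adjugate_smul, Matrix.adjugate_mul_distrib]
    have e2 : (qq q).adjugate.adjugate = qq q := by
      rw [Matrix.adjugate_adjugate _ (by simp)]
      simp
    rw [e2]
    simp only [Fintype.card_fin, Nat.add_one_sub_one, pow_one, Matrix.smul_mul, Matrix.mul_smul,
      smul_smul]
    have e3 : M.adjugate * qq q * ((qq q).adjugate * M') = (n : ℝ) • (M.adjugate * M') := by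
      rw [Matrix.mul_assoc, ← Matrix.mul_assoc (qq q), Matrix.mul_adjugate, hA]
      simp
    rw [e3, smul_smul]
    congr 1
    field_simp
  have hent : ∀ i j, |m.1 i j| ≤ 18 := by
    intro i j
    rw [hm1, Matrix.smul_apply, Matrix.mul_apply, Fin.sum_univ_two, smul_eq_mul, abs_mul, abs_inv]
    have hadj : ∀ i j, |M.adjugate i j| ≤ 3 := by
      intro i j
      rw [Matrix.adjugate_fin_two]
      fin_cases i <;> fin_cases j
      · simpa using hM 1 1
      · simpa using hM 0 1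
      · simpa using hM 1 0
      · simpa using hM 0 0
    have s1 : |M.adjugate i 0 * M' 0 j + M.adjugate i 1 * M' 1 j| ≤ 18 := by
      refine (abs_add_le _ _).trans ?_
      rw [abs_mul, abs_mul]
      have := mul_le_mul (hadj i 0) (hM' 0 j) (abs_nonneg _) (by norm_num)
      have := mul_le_mul (hadj i 1) (hM' 1 j) (abs_nonneg _) (by norm_num)
      linarith
    have s2 : |(n : ℝ)|⁻¹ ≤ 1 := inv_le_one_of_one_le₀ hn1
    calc _ ≤ 1 * (18 : ℝ) := mul_le_mul s2 s1 (abs_nonneg _) zero_le_one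
      _ = _ := one_mul _
  have hd : dist (k • UpperHalfPlane.I) (k' • UpperHalfPlane.I) =
      dist UpperHalfPlane.I (m • UpperHalfPlane.I) := by
    rw [hm, mul_smul, ← dist_smul k⁻¹ (k • UpperHalfPlane.I), inv_smul_smul]
  rw [hd]
  have hcosh := cosh_dist_I m
  have e := fun i j => sq_le_sq' (neg_le_of_abs_le (hent i j)) (le_of_abs_le (hent i j))
  have e00 := e 0 0
  have e01 := e 0 1
  have e10 := e 1 0
  have e11 := e 1 1
  have h3 : Real.cosh (dist UpperHalfPlane.I (m • UpperHalfPlane.I)) ≤ 648 := by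
    rw [hcosh]
    linarith
  have h4 : dist UpperHalfPlane.I (m • UpperHalfPlane.I) ≤
      2 * Real.cosh (dist UpperHalfPlane.I (m • UpperHalfPlane.I)) := by
    rw [Real.cosh_eq]
    have h5 := Real.add_one_le_exp (dist UpperHalfPlane.I (m • UpperHalfPlane.I))
    have h6 := Real.exp_pos (-(dist UpperHalfPlane.I (m • UpperHalfPlane.I)))
    linarith
  linarith

/-- `ℍ` is covered by the translates of few balls of a fixed radius. -/
theorem cover {N : ℤ} (hN : 0 < N) : ∃ (T : Finset (ℤ × ℤ × ℤ × ℤ × ℤ))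
    (p : ℤ × ℤ × ℤ × ℤ × ℤ → ℍ), (T.card : ℝ) ≤ 37 * (19 * N) ^ 4 ∧
    ∀ z : ℍ, ∃ g ∈ cong N, ∃ c ∈ T, dist (g • z) (p c) ≤ 1296 := by
  classical
  set T : Finset (ℤ × ℤ × ℤ × ℤ × ℤ) := Finset.Icc ((-18 : ℤ), (0 : ℤ), (0 : ℤ), (0 : ℤ), (0 : ℤ))
      (18, 18 * N, 18 * N, 18 * N, 18 * N) with hT
  -- representatives
  have hrep : ∀ c : ℤ × ℤ × ℤ × ℤ × ℤ, ∃ q : ℤ × ℤ × ℤ × ℤ,
      (∃ q', nf q' ≠ 0 ∧ cls N q' = c) → cls N q = c := by
    intro c
    by_cases hc : ∃ q', nf q' ≠ 0 ∧ cls N q' = c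
    · obtain ⟨q, -, hq⟩ := hc
      exact ⟨q, fun _ => hq⟩
    · exact ⟨0, fun h => absurd h hc⟩
  choose rep hrep using hrep
  have hp : ∀ c : ℤ × ℤ × ℤ × ℤ × ℤ, ∃ k : SL(2, ℝ),
      (∃ k', Rel c.1 (rep c) k') → Rel c.1 (rep c) k := by
    intro c
    by_cases hc : ∃ k', Rel c.1 (rep c) k'
    · obtain ⟨k, hk⟩ := hc
      exact ⟨k, fun _ => hk⟩
    · exact ⟨1, fun h => absurd h hc⟩
  choose kk hkk using hp
  refine ⟨T, fun c => kk c • UpperHalfPlane.I, ?_, ?_⟩
  · have hcard : T.card = (Finset.Icc (-18 : ℤ) 18).card * ((Finset.Icc (0 : ℤ) (18 * N)).card *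
        ((Finset.Icc (0 : ℤ) (18 * N)).card * ((Finset.Icc (0 : ℤ) (18 * N)).card *
          (Finset.Icc (0 : ℤ) (18 * N)).card))) := by
      rw [hT, Finset.card_Icc_prod, Finset.card_Icc_prod, Finset.card_Icc_prod,
        Finset.card_Icc_prod]
    rw [hcard]
    simp only [Int.card_Icc]
    have e1 : (18 + 1 - (-18 : ℤ)).toNat = 37 := by decide
    have e2 : (((18 * N + 1 - 0 : ℤ).toNat : ℕ) : ℝ) = 18 * N + 1 := by
      have : ((18 * N + 1 - 0 : ℤ).toNat : ℤ) = 18 * N + 1 := by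
        rw [Int.toNat_of_nonneg (by omega)]
        ring
      exact_mod_cast this
    rw [e1]
    push_cast
    push_cast at e2
    rw [e2]
    have hN1 : (1 : ℝ) ≤ N := by exact_mod_cast hN
    have h1 : (18 * (N : ℝ) + 1) ≤ 19 * N := by linarith
    have h2 : (18 * (N : ℝ) + 1) ^ 4 ≤ (19 * N) ^ 4 := pow_le_pow_left₀ (by linarith) h1 4
    calc (37 : ℝ) * ((18 * (N : ℝ) + 1) * ((18 * (N : ℝ) + 1) * ((18 * (N : ℝ) + 1) *
          (18 * (N : ℝ) + 1)))) = 37 * (18 * (N : ℝ) + 1) ^ 4 := by ring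
      _ ≤ _ := by linarith
  · intro z
    set h := z.toSL2R with hh
    have hz : h • UpperHalfPlane.I = z := UpperHalfPlane.toSL2R_smul_I z
    obtain ⟨x, y, z', w, hne, hbd⟩ := minkowski h
    have hdh : h.1.det = 1 := h.2
    set q : ℤ × ℤ × ℤ × ℤ := (x, y, z', w) with hq
    have hnf : ((nf q : ℤ) : ℝ) = (qm x y z' w * h.1).det := by
      rw [Matrix.det_mul, hdh, mul_one, det_qm]
      rfl
    have h0 : nf q ≠ 0 := fun h' => hne (aniso h')
    have h18 : |nf q| ≤ 18 := by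
      have h1 : |((nf q : ℤ) : ℝ)| ≤ 18 := by
        rw [hnf, Matrix.det_fin_two]
        have b00 := (hbd 0 0).le
        have b01 := (hbd 0 1).le
        have b10 := (hbd 1 0).le
        have b11 := (hbd 1 1).le
        refine (abs_sub _ _).trans ?_
        rw [abs_mul, abs_mul]
        have := mul_le_mul b00 b11 (abs_nonneg _) (by norm_num)
        have := mul_le_mul b01 b10 (abs_nonneg _) (by norm_num)
        linarith
      exact_mod_cast h1
    set c := cls N q with hc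
    have hc1 : c.1 = nf q := rfl
    have hr : cls N (rep c) = c := hrep c ⟨q, h0, rfl⟩
    have hrn : nf (rep c) = c.1 := by
      have := congrArg Prod.fst hr
      exact this
    obtain ⟨g, hg, hgm⟩ := exists_unit (x' := (rep c).1) (y' := (rep c).2.1)
      (z' := (rep c).2.2.1) (w' := (rep c).2.2.2) h0 hr
    have hrel : Rel c.1 (rep c) (g * h) := by
      refine ⟨qm x y z' w * h.1, fun i j => (hbd i j).le, hnf.symm, ?_⟩
      rw [Matrix.SpecialLinearGroup.coe_mul, hgm, Matrix.smul_mul, Matrix.mul_assoc]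
      rfl
    refine ⟨g, hg, c, ?_, ?_⟩
    · rw [hT, Finset.mem_Icc]
      rw [abs_le] at h18
      have hne' : nf q * N ≠ 0 := mul_ne_zero h0 hN.ne'
      have hb : ∀ t : ℤ, 0 ≤ t % (nf q * N) ∧ t % (nf q * N) ≤ 18 * N := by
        intro t
        refine ⟨Int.emod_nonneg _ hne', ?_⟩
        have h1 : t % (nf q * N) < |nf q * N| := Int.emod_lt_abs _ hne'
        have h2 : |nf q * N| ≤ 18 * N := by
          rw [abs_mul, abs_of_pos hN]
          exact mul_le_mul_of_nonneg_right (abs_le.mpr h18) hN.le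
        linarith
      exact ⟨⟨h18.1, (hb _).1, (hb _).1, (hb _).1, (hb _).1⟩,
        ⟨h18.2, (hb _).2, (hb _).2, (hb _).2, (hb _).2⟩⟩
    · have := rel_dist (by rw [hc1]; exact h0) hrn hrel (hkk c ⟨_, hrel⟩)
      rwa [mul_smul, hz] at this

/-- The area of the congruence cover of level `N` is `O(N ^ 4)`. -/
theorem area_cong : ∃ C : ℝ, 0 < C ∧ ∀ (N : ℤ) (S : ℝ), 0 < N → 0 < S → MovesFar (cong N) S →
    ∀ D : Set ℍ, IsFundamentalDomain (cong N) D (volume : Measure ℍ) →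
      volume D ≤ ENNReal.ofReal (C * (N : ℝ) ^ 4) := by
  set V : ℝ := (volume (Metric.ball UpperHalfPlane.I 1297)).toReal with hV
  have hVe : ENNReal.ofReal V = volume (Metric.ball UpperHalfPlane.I 1297) :=
    ENNReal.ofReal_toReal (volume_ball_lt_top _ _).ne
  have hV0 : 0 ≤ V := ENNReal.toReal_nonneg
  refine ⟨37 * 19 ^ 4 * V + 1, by positivity, fun N S hN hS hM D hD => ?_⟩
  obtain ⟨T, p, hT, hcov⟩ := cover hN
  have hcov' : ∀ z : ℍ, ∃ g ∈ cong N, g • z ∈ ⋃ c ∈ T, Metric.ball (p c) 1297 := by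
    intro z
    obtain ⟨g, hg, c, hc, hd⟩ := hcov z
    refine ⟨g, hg, ?_⟩
    simp only [Set.mem_iUnion]
    exact ⟨c, hc, by rw [Metric.mem_ball]; linarith⟩
  refine (hM.volume_le_of_cover hS hD hcov').trans ?_
  refine (measure_biUnion_finset_le T _).trans ?_
  simp only [volume_ball]
  rw [Finset.sum_const, nsmul_eq_mul, ← hVe, ← ENNReal.ofReal_natCast,
    ← ENNReal.ofReal_mul (by positivity)]
  apply ENNReal.ofReal_le_ofReal
  have h1 : (T.card : ℝ) * V ≤ 37 * (19 * N) ^ 4 * V := mul_le_mul_of_nonneg_right hT hV0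
  have h2 : (0 : ℝ) ≤ (N : ℝ) ^ 4 := by positivity
  calc (T.card : ℝ) * V ≤ 37 * (19 * N) ^ 4 * V := h1
    _ = (37 * 19 ^ 4 * V) * (N : ℝ) ^ 4 := by ring
    _ ≤ (37 * 19 ^ 4 * V + 1) * (N : ℝ) ^ 4 := by nlinarith

/-- Levels with a bound. -/
theorem exists_level' {S : ℝ} (hS0 : 0 ≤ S) : ∃ N : ℤ, 0 < N ∧ (N : ℝ) ≤ 9 * Real.exp S ∧
    MovesFar (cong N) S := by
  have hcp : 0 ≤ Real.cosh S + 2 := by have := Real.one_le_cosh S; linarith
  set n : ℕ := ⌊Real.cosh S + 2⌋₊ + 1 with hn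
  have hn1 : Real.cosh S + 2 < n := by
    rw [hn]; push_cast; exact Nat.lt_floor_add_one _
  have hn2 : (n : ℝ) ≤ Real.cosh S + 3 := by
    rw [hn]; push_cast
    have := Nat.floor_le hcp
    linarith
  refine ⟨2 * n + 1, by positivity, ?_, fun g hg hg1 z => ?_⟩
  · have h1 : Real.cosh S ≤ Real.exp S := by
      rw [Real.cosh_eq]
      have : Real.exp (-S) ≤ Real.exp S := Real.exp_le_exp.2 (by linarith)
      linarith
    have h2 : 1 ≤ Real.exp S := Real.one_le_exp hS0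
    push_cast
    linarith
  · have h1 := trace_bound ⟨(n : ℤ), rfl⟩ hg hg1
    have h2 := cosh_dist_ge g z
    push_cast at h1
    have hc := Real.one_le_cosh S
    have h3 : Real.cosh S ≤ Real.cosh (dist z (g • z)) := by
      have hn0 : (0 : ℝ) ≤ n := Nat.cast_nonneg n
      have h4 : (n : ℝ) ≤ 2 * ((2 * (n : ℝ) + 1) ^ 2 - 1) := by nlinarith
      have h5 : (n : ℝ) ≤ |g.1.trace| := h4.trans h1
      have h6 : (n : ℝ) ^ 2 ≤ g.1.trace ^ 2 := by
        rw [← sq_abs g.1.trace]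
        exact pow_le_pow_left₀ hn0 h5 2
      nlinarith
    by_contra hcon
    push Not at hcon
    have h7 := Real.cosh_lt_cosh.mpr (show |dist z (g • z)| < |S| by
      rw [abs_of_nonneg dist_nonneg, abs_of_nonneg hS0]; exact hcon)
    linarith

end Pool.Agent.Y279.HS
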